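import Pool.Agent.Lib.H89M.Tree
import Pool.Agent.Lib.H98Z.S4

/-!
# H89M, file Sym: plane spanning trees between two vertex sets, from (Z)
-/

set_option autoImplicit false
set_option linter.unusedSectionVars false

namespace H89M

open Finset H98P H98Z

variable {V : Type*} [Fintype V] [DecidableEq V]

theorem acyc_of_hz {cross : Sym2 V → Sym2 V → Prop} (hsymm : ∀ e f, cross e f → cross f e)
    (hZ : ∀ W : Finset V, HZ cross W) {A B : Finset V} (hAB : Disjoint A B) :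
    H24B.Acyc (fun p q : A × B => cross s(p.1.1, p.2.1) s(q.1.1, q.2.1)) := by
  classical
  have hinj : Function.Injective (fun p : A × B => s(p.1.1, p.2.1)) := by
    rintro ⟨⟨a, ha⟩, ⟨b, hb⟩⟩ ⟨⟨a', ha'⟩, ⟨b', hb'⟩⟩ h1
    rw [Sym2.eq_iff] at h1
    rcases h1 with ⟨h2, h3⟩ | ⟨h2, h3⟩
    · simp only at h2 h3
      subst h2 h3
      rfl
    · simp only at h2 h3
      subst h2 h3
      exact absurd hb' (disjoint_left.1 hAB ha)
  intro A' B' hA' hB'
  have h1 : Disjoint (A'.map (Function.Embedding.subtype _))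
      (B'.map (Function.Embedding.subtype _)) := by
    rw [disjoint_left]
    intro x hx hy
    obtain ⟨a, _, rfl⟩ := mem_map.1 hx
    obtain ⟨b, _, hb⟩ := mem_map.1 hy
    have h2 : (b : V) = a := hb
    exact disjoint_left.1 hAB a.2 (h2 ▸ b.2)
  have h2 := acy_br hsymm h1 (hA'.map) (hB'.map) (hZ _)
  have h3 : (A' ×ˢ B').map ⟨fun p : A × B => s(p.1.1, p.2.1), hinj⟩ =
      br (A'.map (Function.Embedding.subtype _)) (B'.map (Function.Embedding.subtype _)) := by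
    ext e
    rw [mem_map, mem_br]
    constructor
    · rintro ⟨⟨a, b⟩, hp, rfl⟩
      rw [mem_product] at hp
      exact ⟨a.1, mem_map_of_mem _ hp.1, b.1, mem_map_of_mem _ hp.2, rfl⟩
    · rintro ⟨x, hx, y, hy, rfl⟩
      obtain ⟨a, ha, rfl⟩ := mem_map.1 hx
      obtain ⟨b, hb, rfl⟩ := mem_map.1 hy
      exact ⟨(a, b), mem_product.2 ⟨ha, hb⟩, rfl⟩
  rw [← h3] at h2
  exact acy_transport _ h2

/-- The edge set of a plane spanning tree of `A ∪ B` with edges between `A` and `B` only. -/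
structure BTree (cross : Sym2 V → Sym2 V → Prop) (A B : Finset V) (T : Finset (Sym2 V)) : Prop where
  plane : Plane cross T
  sub : T ⊆ br A B
  card : T.card + 1 = A.card + B.card
  conn : ∀ S ⊆ A ∪ B, S.Nonempty → S ≠ A ∪ B → ∃ x ∈ S, ∃ y ∈ (A ∪ B) \ S, s(x, y) ∈ T

/-- From pairs to `Sym2`. -/
theorem btree_of {cross : Sym2 V → Sym2 V → Prop} {A B : Finset V} (hAB : Disjoint A B)
    {σ : Finset (A × B)}
    (h1 : Plane (fun p q : A × B => cross s(p.1.1, p.2.1) s(q.1.1, q.2.1)) σ)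
    (h2 : σ.card + 1 = Fintype.card A + Fintype.card B) (h3 : Conn σ) :
    BTree cross A B (σ.image fun p => s(p.1.1, p.2.1)) ∧
      (∀ w : Sym2 V → ℝ, ∀ a : A, ∑ e ∈ (σ.image fun p => s(p.1.1, p.2.1)).filter
        (fun e => (a : V) ∈ e), w e = ∑ p ∈ σ.filter (fun p => p.1 = a), w s(p.1.1, p.2.1)) ∧
      (∀ w : Sym2 V → ℝ, ∀ b : B, ∑ e ∈ (σ.image fun p => s(p.1.1, p.2.1)).filter
        (fun e => (b : V) ∈ e), w e = ∑ p ∈ σ.filter (fun p => p.2 = b), w s(p.1.1, p.2.1)) ∧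
      ∀ a : A, ((σ.image fun p => s(p.1.1, p.2.1)).filter fun e => (a : V) ∈ e).card =
        (σ.filter fun p => p.1 = a).card := by
  classical
  have hinj : Function.Injective (fun p : A × B => s(p.1.1, p.2.1)) := by
    rintro ⟨⟨a, ha⟩, ⟨b, hb⟩⟩ ⟨⟨a', ha'⟩, ⟨b', hb'⟩⟩ h1
    rw [Sym2.eq_iff] at h1
    rcases h1 with ⟨h2, h3⟩ | ⟨h2, h3⟩
    · simp only at h2 h3
      subst h2 h3
      rfl
    · simp only at h2 h3
      subst h2 h3
      exact absurd hb' (disjoint_left.1 hAB ha)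
  have hfa : ∀ a : A, (σ.image fun p => s(p.1.1, p.2.1)).filter (fun e => (a : V) ∈ e) =
      (σ.filter fun p => p.1 = a).image fun p => s(p.1.1, p.2.1) := by
    intro a
    ext e
    rw [mem_filter, mem_image, mem_image]
    constructor
    · rintro ⟨⟨p, hp, rfl⟩, h4⟩
      refine ⟨p, mem_filter.2 ⟨hp, ?_⟩, rfl⟩
      rw [Sym2.mem_iff] at h4
      rcases h4 with h4 | h4
      · exact Subtype.ext h4.symm
      · exact absurd p.2.2 (disjoint_left.1 hAB (h4 ▸ a.2))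
    · rintro ⟨p, hp, rfl⟩
      obtain ⟨h4, h5⟩ := mem_filter.1 hp
      exact ⟨⟨p, h4, rfl⟩, by rw [← h5]; exact Sym2.mem_mk_left _ _⟩
  have hfb : ∀ b : B, (σ.image fun p => s(p.1.1, p.2.1)).filter (fun e => (b : V) ∈ e) =
      (σ.filter fun p => p.2 = b).image fun p => s(p.1.1, p.2.1) := by
    intro b
    ext e
    rw [mem_filter, mem_image, mem_image]
    constructor
    · rintro ⟨⟨p, hp, rfl⟩, h4⟩
      refine ⟨p, mem_filter.2 ⟨hp, ?_⟩, rfl⟩
      rw [Sym2.mem_iff] at h4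
      rcases h4 with h4 | h4
      · exact absurd b.2 (disjoint_left.1 hAB (h4 ▸ p.1.2))
      · exact Subtype.ext h4.symm
    · rintro ⟨p, hp, rfl⟩
      obtain ⟨h4, h5⟩ := mem_filter.1 hp
      exact ⟨⟨p, h4, rfl⟩, by rw [← h5]; exact Sym2.mem_mk_right _ _⟩
  refine ⟨⟨?_, ?_, ?_, ?_⟩, ?_, ?_, ?_⟩
  · intro e he f hf
    obtain ⟨p, hp, rfl⟩ := mem_image.1 he
    obtain ⟨q, hq, rfl⟩ := mem_image.1 hf
    exact h1 p hp q hq
  · intro e he
    obtain ⟨p, hp, rfl⟩ := mem_image.1 he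
    exact mem_br.2 ⟨p.1.1, p.1.2, p.2.1, p.2.2, rfl⟩
  · rw [card_image_of_injective _ hinj, h2, Fintype.card_coe, Fintype.card_coe]
  · intro S hS hSn hSne
    obtain ⟨e, he, h4⟩ := h3 (univ.filter fun a : A => (a : V) ∈ S)
      (univ.filter fun b : B => (b : V) ∈ S) (by
        obtain ⟨x, hx⟩ := hSn
        rcases mem_union.1 (hS hx) with h5 | h5
        · exact Or.inl ⟨⟨x, h5⟩, mem_filter.2 ⟨mem_univ _, hx⟩⟩
        · exact Or.inr ⟨⟨x, h5⟩, mem_filter.2 ⟨mem_univ _, hx⟩⟩) (by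
        by_contra h5
        push Not at h5
        refine hSne (subset_antisymm hS fun x hx => ?_)
        rcases mem_union.1 hx with h6 | h6
        · have h7 : (⟨x, h6⟩ : A) ∈ (univ : Finset A) := mem_univ _
          rw [← h5.1] at h7
          exact (mem_filter.1 h7).2
        · have h7 : (⟨x, h6⟩ : B) ∈ (univ : Finset B) := mem_univ _
          rw [← h5.2] at h7
          exact (mem_filter.1 h7).2)
    simp only [mem_filter, mem_univ, true_and] at h4
    have hT : s(e.1.1, e.2.1) ∈ σ.image fun p => s(p.1.1, p.2.1) := mem_image.2 ⟨e, he, rfl⟩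
    have hu : e.1.1 ∈ A ∪ B ∧ e.2.1 ∈ A ∪ B :=
      ⟨mem_union_left _ e.1.2, mem_union_right _ e.2.2⟩
    by_cases h5 : (e.1 : V) ∈ S
    · have h6 : (e.2 : V) ∉ S := fun h => h4 ⟨fun _ => h, fun _ => h5⟩
      exact ⟨_, h5, _, mem_sdiff.2 ⟨hu.2, h6⟩, hT⟩
    · have h6 : (e.2 : V) ∈ S := by
        by_contra h
        exact h4 ⟨fun h' => absurd h' h5, fun h' => absurd h' h⟩
      refine ⟨_, h6, _, mem_sdiff.2 ⟨hu.1, h5⟩, ?_⟩
      rw [Sym2.eq_swap]
      exact hT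
  · intro w a
    rw [hfa, sum_image fun p _ q _ h => hinj h]
  · intro w b
    rw [hfb, sum_image fun p _ q _ h => hinj h]
  · intro a
    rw [hfa, card_image_of_injective _ hinj]

variable {cross : Sym2 V → Sym2 V → Prop}

/-- (D): PRESCRIBED DEGREES on one side. -/
theorem degree_tree (hsymm : ∀ e f, cross e f → cross f e)
    (hadj : ∀ a b c, ¬ cross s(a, b) s(a, c)) (hZ : ∀ W : Finset V, HZ cross W)
    {A B : Finset V} (hAB : Disjoint A B) (hA : A.Nonempty) (hB : B.Nonempty) {d : V → ℕ}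
    (hd : ∀ a ∈ A, 1 ≤ d a) (hsum : ∑ a ∈ A, d a + 1 = A.card + B.card) :
    ∃ T : Finset (Sym2 V), BTree cross A B T ∧ ∀ a ∈ A, (T.filter fun e => a ∈ e).card = d a := by
  classical
  haveI : Nonempty A := hA.to_subtype
  haveI : Nonempty B := hB.to_subtype
  obtain ⟨σ, h1, h2, h3, h4⟩ := degrees (α := A) (β := B)
    (cross := fun p q => cross s(p.1.1, p.2.1) s(q.1.1, q.2.1))
    (fun a b b' => hadj _ _ _) (fun a a' b hx => by
      apply hadj b.1 a.1 a'.1
      rw [Sym2.eq_swap (a := b.1) (b := a.1), Sym2.eq_swap (a := b.1) (b := a'.1)]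
      exact hx) (acyc_of_hz hsymm hZ hAB) (d := fun a => d a.1) (fun a => hd a.1 a.2) (by
      rw [Fintype.card_coe, Fintype.card_coe, ← hsum]
      congr 1
      exact Finset.sum_coe_sort A d)
  obtain ⟨h5, _, _, h6⟩ := btree_of hAB h1 h2 h3
  exact ⟨_, h5, fun a ha => (h6 ⟨a, ha⟩).trans (h4 ⟨a, ha⟩)⟩

/-- (W): TRANSPORT TREES. -/
theorem transport_tree (hsymm : ∀ e f, cross e f → cross f e)
    (hadj : ∀ a b c, ¬ cross s(a, b) s(a, c)) (hZ : ∀ W : Finset V, HZ cross W)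
    {A B : Finset V} (hAB : Disjoint A B) (hA : A.Nonempty) (hB : B.Nonempty) {x : V → ℝ}
    (hx : ∀ v ∈ A ∪ B, 0 < x v) (hsum : ∑ a ∈ A, x a = ∑ b ∈ B, x b) :
    ∃ T : Finset (Sym2 V), BTree cross A B T ∧ ∃ w : Sym2 V → ℝ, (∀ e ∈ T, 0 ≤ w e) ∧
      ∀ v ∈ A ∪ B, ∑ e ∈ T.filter (fun e => v ∈ e), w e = x v := by
  classical
  haveI : Nonempty A := hA.to_subtype
  haveI : Nonempty B := hB.to_subtype
  have hinj : Function.Injective (fun p : A × B => s(p.1.1, p.2.1)) := by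
    rintro ⟨⟨a, ha⟩, ⟨b, hb⟩⟩ ⟨⟨a', ha'⟩, ⟨b', hb'⟩⟩ h1
    rw [Sym2.eq_iff] at h1
    rcases h1 with ⟨h2, h3⟩ | ⟨h2, h3⟩
    · simp only at h2 h3
      subst h2 h3
      rfl
    · simp only at h2 h3
      subst h2 h3
      exact absurd hb' (disjoint_left.1 hAB ha)
  obtain ⟨σ, h1, h2, h3, w, h4, h5⟩ := transport (α := A) (β := B)
    (cross := fun p q => cross s(p.1.1, p.2.1) s(q.1.1, q.2.1))
    (fun a b b' => hadj _ _ _) (fun a a' b hx => by
      apply hadj b.1 a.1 a'.1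
      rw [Sym2.eq_swap (a := b.1) (b := a.1), Sym2.eq_swap (a := b.1) (b := a'.1)]
      exact hx) (acyc_of_hz hsymm hZ hAB) (x := Sum.elim (fun a => x a.1) (fun b => x b.1)) (by
      rintro (a | b)
      · exact hx a.1 (mem_union_left _ a.2)
      · exact hx b.1 (mem_union_right _ b.2)) (by
      simp only [Sum.elim_inl, Sum.elim_inr]
      rw [Finset.sum_coe_sort A x, Finset.sum_coe_sort B x]
      exact hsum)
  obtain ⟨h6, h7, h8, _⟩ := btree_of hAB h1 h2 h3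
  obtain ⟨w', hw'⟩ : ∃ w' : Sym2 V → ℝ, ∀ p : A × B, w' s(p.1.1, p.2.1) = w p := by
    refine ⟨Function.extend (fun p : A × B => s(p.1.1, p.2.1)) w 0, fun p => ?_⟩
    exact hinj.extend_apply w 0 p
  refine ⟨_, h6, w', ?_, ?_⟩
  · intro e he
    obtain ⟨p, hp, rfl⟩ := mem_image.1 he
    rw [hw']
    exact h4 p hp
  · intro v hv
    rcases mem_union.1 hv with hvA | hvB
    · have h9 := sum_inl h5 {(⟨v, hvA⟩ : A)}
      rw [Finset.sum_singleton] at h9
      have h10 := h7 w' ⟨v, hvA⟩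
      rw [h10]
      refine Eq.trans ?_ h9.symm
      rw [filter_congr (q := fun e => e.1 ∈ ({(⟨v, hvA⟩ : A)} : Finset A))
        (fun e _ => by rw [Finset.mem_singleton])]
      exact sum_congr rfl fun p _ => hw' p
    · have h9 := sum_inr h5 {(⟨v, hvB⟩ : B)}
      rw [Finset.sum_singleton] at h9
      have h10 := h8 w' ⟨v, hvB⟩
      rw [h10]
      refine Eq.trans ?_ h9.symm
      rw [filter_congr (q := fun e => e.2 ∈ ({(⟨v, hvB⟩ : B)} : Finset B))
        (fun e _ => by rw [Finset.mem_singleton])]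
      exact sum_congr rfl fun p _ => hw' p

end H89M
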