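import Pool.Agent.Lib.H24B.B5

/-!
# H89M, file Tree: plane spanning trees from acyclicity (bipartite case)

`Acyc cross` (H24B): the complex of plane subsets of `A ×ˢ B` is acyclic mod 2 for all nonempty `A`, `B`.
* `transport`: for all positive `x` on the two sides with equal sums there are a plane spanning tree `σ` and weights
  `w ≥ 0` on it with the marginals `x`.
* `degrees`: for all `d a ≥ 1` with `∑ d a = |α| + |β| - 1` there is a plane spanning tree in which every `a`
  has degree `d a`.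
-/

set_option autoImplicit false
set_option linter.unusedSectionVars false

namespace H89M

open Finset H98P H24B

variable {α β : Type*} [Fintype α] [Fintype β] [DecidableEq α] [DecidableEq β]

/-- Every proper part of the vertex set is left by an edge. -/
def Conn (σ : Finset (α × β)) : Prop :=
  ∀ (A : Finset α) (B : Finset β), (A.Nonempty ∨ B.Nonempty) → (A ≠ univ ∨ B ≠ univ) →
    ∃ e ∈ σ, ¬ (e.1 ∈ A ↔ e.2 ∈ B)

/-- Balanced generic vectors near a balanced vector. -/
theorem exists_near [Nonempty α] (x0 : α ⊕ β → ℝ)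
    (h0 : ∑ a, x0 (Sum.inl a) = ∑ b, x0 (Sum.inr b)) {δ : ℝ} (hδ : 0 < δ) :
    ∃ x : α ⊕ β → ℝ, (∀ v, |x v - x0 v| < δ) ∧
      Bal (univ : Finset α) (univ : Finset β) x ∧ GenP (univ : Finset α) (univ : Finset β) x := by
  classical
  obtain ⟨N, hN⟩ : ∃ N : Submodule ℝ (α ⊕ β → ℝ), N = LinearMap.ker dif := ⟨_, rfl⟩
  have hmem : ∀ y : α ⊕ β → ℝ, y ∈ N ↔ dif y = 0 := by
    intro y
    rw [hN, LinearMap.mem_ker]
  have hfr : Module.finrank ℝ N + 1 = Fintype.card α + Fintype.card β := by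
    have h1 := LinearMap.finrank_range_add_finrank_ker (dif (α := α) (β := β))
    rw [Module.finrank_fintype_fun_eq_card, Fintype.card_sum, ← hN] at h1
    have h2 : LinearMap.range (dif (α := α) (β := β)) = ⊤ := by
      rw [LinearMap.range_eq_top]
      intro r
      obtain ⟨a0⟩ := (inferInstance : Nonempty α)
      refine ⟨Sum.elim (fun a => if a = a0 then r else 0) (fun _ => 0), ?_⟩
      rw [dif_apply]
      simp
    rw [h2, finrank_top, Module.finrank_self] at h1
    omega
  obtain ⟨col, hcol⟩ : ∃ col : α × β → N, ∀ e, (col e : α ⊕ β → ℝ) = vec e :=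
    ⟨fun e => ⟨vec e, (hmem _).2 (dif_vec e)⟩, fun e => rfl⟩
  have hU : IsOpen {b : N | ∀ v, |(b : α ⊕ β → ℝ) v - x0 v| < δ} := by
    rw [Set.ofPred_forall]
    refine isOpen_iInter_of_finite fun v => ?_
    exact isOpen_lt (continuous_abs.comp
      (((continuous_apply v).comp continuous_subtype_val).sub continuous_const)) continuous_const
  have hne : {b : N | ∀ v, |(b : α ⊕ β → ℝ) v - x0 v| < δ}.Nonempty := by
    refine ⟨⟨x0, (hmem _).2 ?_⟩, fun v => ?_⟩
    · rw [dif_apply, h0, sub_self]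
    · show |x0 v - x0 v| < δ
      rw [sub_self, abs_zero]
      exact hδ
  obtain ⟨b, hb, hgen⟩ := exists_gen col _ hU hne
  refine ⟨b, hb, ⟨fun a ha => absurd (Finset.mem_univ a) ha, fun b hb => absurd (Finset.mem_univ b) hb,
    ?_⟩, ?_⟩
  · have h1 := (hmem _).1 b.2
    rw [dif_apply] at h1
    linarith
  · intro σ _ hc w hw
    refine hgen σ ?_ w (Subtype.ext ?_)
    · rw [Finset.card_univ, Finset.card_univ] at hc
      omega
    · rw [← hw, AddSubmonoidClass.coe_finsetSum]
      refine Finset.sum_congr rfl fun e _ => ?_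
      rw [← hcol e]
      rfl

/-- The sum of a combination over a part of the left side. -/
theorem sum_inl {σ : Finset (α × β)} {w : α × β → ℝ} {x : α ⊕ β → ℝ}
    (h : ∑ e ∈ σ, w e • vec e = x) (A : Finset α) :
    ∑ a ∈ A, x (Sum.inl a) = ∑ e ∈ σ.filter (fun e => e.1 ∈ A), w e := by
  rw [← h]
  simp only [comb_apply, vec_inl]
  rw [Finset.sum_comm, Finset.sum_filter]
  refine Finset.sum_congr rfl fun e _ => ?_
  rw [← Finset.mul_sum, Finset.sum_ite_eq' A e.1]
  split_ifs <;> simp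

theorem sum_inr {σ : Finset (α × β)} {w : α × β → ℝ} {x : α ⊕ β → ℝ}
    (h : ∑ e ∈ σ, w e • vec e = x) (B : Finset β) :
    ∑ b ∈ B, x (Sum.inr b) = ∑ e ∈ σ.filter (fun e => e.2 ∈ B), w e := by
  rw [← h]
  simp only [comb_apply, vec_inr]
  rw [Finset.sum_comm, Finset.sum_filter]
  refine Finset.sum_congr rfl fun e _ => ?_
  rw [← Finset.mul_sum, Finset.sum_ite_eq' B e.2]
  split_ifs <;> simp

/-- The support of a generic positive vector is connected. -/
theorem conn_of_gen {σ : Finset (α × β)} {w : α × β → ℝ} {x : α ⊕ β → ℝ} (hpos : ∀ v, 0 < x v)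
    (hgen : GenP (univ : Finset α) (univ : Finset β) x) (h : ∑ e ∈ σ, w e • vec e = x) : Conn σ := by
  classical
  intro A B hne hpr
  by_contra hcon
  push Not at hcon
  -- balance of the two parts
  have hbal : ∀ (A : Finset α) (B : Finset β), (∀ e ∈ σ, (e.1 ∈ A ↔ e.2 ∈ B)) →
      ∑ a ∈ A, x (Sum.inl a) = ∑ b ∈ B, x (Sum.inr b) := by
    intro A B hAB
    rw [sum_inl h, sum_inr h]
    congr 1
    ext e
    simp only [Finset.mem_filter]
    exact ⟨fun h1 => ⟨h1.1, (hAB e h1.1).1 h1.2⟩, fun h1 => ⟨h1.1, (hAB e h1.1).2 h1.2⟩⟩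
  have hboth : ∀ (A : Finset α) (B : Finset β), (∀ e ∈ σ, (e.1 ∈ A ↔ e.2 ∈ B)) →
      (A.Nonempty ∨ B.Nonempty) → A.Nonempty ∧ B.Nonempty := by
    intro A B hAB hne
    have h1 := hbal A B hAB
    rcases hne with hA | hB
    · refine ⟨hA, ?_⟩
      rw [Finset.nonempty_iff_ne_empty]
      rintro rfl
      have h2 : 0 < ∑ a ∈ A, x (Sum.inl a) := Finset.sum_pos (fun a _ => hpos _) hA
      rw [h1, Finset.sum_empty] at h2
      exact lt_irrefl _ h2
    · refine ⟨?_, hB⟩
      rw [Finset.nonempty_iff_ne_empty]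
      rintro rfl
      have h2 : 0 < ∑ b ∈ B, x (Sum.inr b) := Finset.sum_pos (fun a _ => hpos _) hB
      rw [← h1, Finset.sum_empty] at h2
      exact lt_irrefl _ h2
  have hcon' : ∀ e ∈ σ, (e.1 ∈ Aᶜ ↔ e.2 ∈ Bᶜ) := by
    intro e he
    rw [Finset.mem_compl, Finset.mem_compl, hcon e he]
  obtain ⟨hA1, hB1⟩ := hboth A B hcon hne
  obtain ⟨hA2, hB2⟩ := hboth Aᶜ Bᶜ hcon' (by
    rcases hpr with h1 | h1
    · left
      rw [Finset.nonempty_iff_ne_empty]
      intro h2
      exact h1 (Finset.compl_eq_empty_iff A |>.1 h2)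
    · right
      rw [Finset.nonempty_iff_ne_empty]
      intro h2
      exact h1 (Finset.compl_eq_empty_iff B |>.1 h2))
  -- the two parts of `x`
  obtain ⟨y, hy⟩ : ∃ y : Finset α → Finset β → α ⊕ β → ℝ, y = fun A B v =>
      Sum.elim (fun a => if a ∈ A then x (Sum.inl a) else 0)
        (fun b => if b ∈ B then x (Sum.inr b) else 0) v := ⟨_, rfl⟩
  have hyB : ∀ (A : Finset α) (B : Finset β), (∀ e ∈ σ, (e.1 ∈ A ↔ e.2 ∈ B)) →
      Bal A B (y A B) := by
    intro A B hAB
    refine ⟨fun a ha => ?_, fun b hb => ?_, ?_⟩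
    · rw [hy]
      simp [ha]
    · rw [hy]
      simp [hb]
    · rw [hy]
      simp only [Sum.elim_inl, Sum.elim_inr]
      rw [Finset.sum_congr rfl fun a ha => if_pos ha, Finset.sum_congr rfl fun b hb => if_pos hb]
      exact hbal A B hAB
  obtain ⟨σ1, h1, h2, w1, h3⟩ := comb_bal _ A B hA1 hB1 rfl _ (hyB A B hcon)
  obtain ⟨σ2, h4, h5, w2, h6⟩ := comb_bal _ Aᶜ Bᶜ hA2 hB2 rfl _ (hyB Aᶜ Bᶜ hcon')
  have hdis : Disjoint σ1 σ2 := by
    rw [Finset.disjoint_left]
    intro e he1 he2
    exact Finset.mem_compl.1 (Finset.mem_product.1 (h4 he2)).1 (Finset.mem_product.1 (h1 he1)).1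
  refine hgen (σ1 ∪ σ2) (fun e _ => Finset.mem_product.2 ⟨Finset.mem_univ _, Finset.mem_univ _⟩) ?_
    (fun e => if e ∈ σ1 then w1 e else w2 e) ?_
  · rw [Finset.card_union_of_disjoint hdis, Finset.card_univ, Finset.card_univ]
    have h7 := Finset.card_add_card_compl A
    have h8 := Finset.card_add_card_compl B
    omega
  · rw [Finset.sum_union hdis]
    have h7 : ∑ e ∈ σ1, (if e ∈ σ1 then w1 e else w2 e) • vec e = y A B := by
      rw [← h3]
      exact Finset.sum_congr rfl fun e he => by rw [if_pos he]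
    have h8 : ∑ e ∈ σ2, (if e ∈ σ1 then w1 e else w2 e) • vec e = y Aᶜ Bᶜ := by
      rw [← h6]
      exact Finset.sum_congr rfl fun e he => by
        rw [if_neg fun h => Finset.disjoint_left.1 hdis h he]
    rw [h7, h8, hy]
    funext v
    rcases v with a | b
    · simp only [Pi.add_apply, Sum.elim_inl, Finset.mem_compl]
      by_cases ha : a ∈ A <;> simp [ha]
    · simp only [Pi.add_apply, Sum.elim_inr, Finset.mem_compl]
      by_cases hb : b ∈ B <;> simp [hb]

/-- The generic case. -/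
theorem transport_gen {cross : α × β → α × β → Prop} [Nonempty α] [Nonempty β]
    (hA : ∀ a b b', ¬ cross (a, b) (a, b')) (hB : ∀ a a' b, ¬ cross (a, b) (a', b))
    (hac : Acyc cross) {x : α ⊕ β → ℝ} (hpos : ∀ v, 0 < x v)
    (hbal : Bal (univ : Finset α) (univ : Finset β) x)
    (hgen : GenP (univ : Finset α) (univ : Finset β) x) :
    ∃ σ : Finset (α × β), Plane cross σ ∧ σ.card + 1 = Fintype.card α + Fintype.card β ∧ Conn σ ∧
      ∃ w : α × β → ℝ, (∀ e ∈ σ, 0 ≤ w e) ∧ ∑ e ∈ σ, w e • vec e = x := by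
  classical
  obtain ⟨c, hs, ho, hr⟩ := chains hA hB hac
  have h1 : 0 < Fintype.card α := Fintype.card_pos
  have h2 : 0 < Fintype.card β := Fintype.card_pos
  have hodd := count hs ho hr (Fintype.card α + Fintype.card β - 1) univ univ Finset.univ_nonempty
    Finset.univ_nonempty (by rw [Finset.card_univ, Finset.card_univ]; omega) x
    ⟨fun a _ => hpos _, fun b _ => hpos _⟩ hbal hgen
  have hex : ∃ σ, c univ univ σ * door vec (Fintype.card α + Fintype.card β - 1) x σ ≠ 0 := by
    by_contra hcon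
    push Not at hcon
    rw [Finset.sum_eq_zero fun σ _ => hcon σ] at hodd
    exact zero_ne_one hodd
  obtain ⟨σ, hσ⟩ := hex
  have hd : door vec (Fintype.card α + Fintype.card β - 1) x σ ≠ 0 := right_ne_zero_of_mul hσ
  have hc : c univ univ σ ≠ 0 := left_ne_zero_of_mul hσ
  obtain ⟨w, hw0, hw⟩ : InCone vec σ x := by
    by_contra hcon
    exact hd (door_zero hcon)
  obtain ⟨_, _, _, hpl, hcard⟩ := hs _ _ _ hc
  rw [Finset.card_univ, Finset.card_univ] at hcard
  exact ⟨σ, hpl, hcard, conn_of_gen hpos hgen hw, w, hw0, hw⟩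

/-- TRANSPORT TREES. -/
theorem transport {cross : α × β → α × β → Prop} [Nonempty α] [Nonempty β]
    (hA : ∀ a b b', ¬ cross (a, b) (a, b')) (hB : ∀ a a' b, ¬ cross (a, b) (a', b))
    (hac : Acyc cross) {x : α ⊕ β → ℝ} (hpos : ∀ v, 0 < x v)
    (hbal : ∑ a, x (Sum.inl a) = ∑ b, x (Sum.inr b)) :
    ∃ σ : Finset (α × β), Plane cross σ ∧ σ.card + 1 = Fintype.card α + Fintype.card β ∧ Conn σ ∧
      ∃ w : α × β → ℝ, (∀ e ∈ σ, 0 ≤ w e) ∧ ∑ e ∈ σ, w e • vec e = x := by
  classical
  obtain ⟨M, hM⟩ : ∃ M : ℝ, M = ∑ v, x v + 1 := ⟨_, rfl⟩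
  have hMv : ∀ v, x v + 1 ≤ M := by
    intro v
    rw [hM]
    have := Finset.single_le_sum (f := x) (fun v _ => (hpos v).le) (Finset.mem_univ v)
    linarith
  obtain ⟨m, hm0, hm⟩ : ∃ m : ℝ, 0 < m ∧ ∀ v, m ≤ x v := by
    obtain ⟨v, _, hv⟩ := Finset.exists_min_image (Finset.univ : Finset (α ⊕ β)) x
      Finset.univ_nonempty
    exact ⟨x v, hpos v, fun u => hv u (Finset.mem_univ u)⟩
  -- the compact set
  obtain ⟨S, hS⟩ : ∃ S : Set (Finset (α × β)), S = {σ | Plane cross σ ∧
      σ.card + 1 = Fintype.card α + Fintype.card β ∧ Conn σ} := ⟨_, rfl⟩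
  have hbox : IsCompact (Set.pi Set.univ fun _ : α × β => Set.Icc (0 : ℝ) M) :=
    isCompact_univ_pi fun _ => isCompact_Icc
  have hcont : ∀ σ : Finset (α × β), Continuous fun w : α × β → ℝ => ∑ e ∈ σ, w e • vec e := by
    intro σ
    refine continuous_finsetSum _ fun e _ => ?_
    exact (continuous_apply e).smul continuous_const
  have hK : IsClosed (⋃ σ ∈ S, (fun w : α × β → ℝ => ∑ e ∈ σ, w e • vec e) ''
      (Set.pi Set.univ fun _ : α × β => Set.Icc (0 : ℝ) M)) := by
    refine Set.Finite.isClosed_biUnion (Set.toFinite S) fun σ _ => ?_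
    exact (hbox.image (hcont σ)).isClosed
  have hx : x ∈ ⋃ σ ∈ S, (fun w : α × β → ℝ => ∑ e ∈ σ, w e • vec e) ''
      (Set.pi Set.univ fun _ : α × β => Set.Icc (0 : ℝ) M) := by
    rw [← hK.closure_eq, Metric.mem_closure_iff]
    intro ε hε
    obtain ⟨x', h1, h2, h3⟩ := exists_near x hbal (δ := min (ε / 2) (min (m / 2) 1)) (by
      refine lt_min (by linarith) (lt_min (by linarith) one_pos))
    have hpos' : ∀ v, 0 < x' v := by
      intro v
      have h4 := (abs_lt.1 (h1 v)).1
      have h5 : min (ε / 2) (min (m / 2) 1) ≤ m / 2 := (min_le_right _ _).trans (min_le_left _ _)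
      have := hm v
      linarith
    obtain ⟨σ, h4, h5, h6, w, h7, h8⟩ := transport_gen hA hB hac hpos' h2 h3
    refine ⟨x', ?_, ?_⟩
    · rw [Set.mem_iUnion₂]
      refine ⟨σ, by rw [hS]; exact ⟨h4, h5, h6⟩, fun e => if e ∈ σ then w e else 0, ?_, ?_⟩
      · intro e _
        show (if e ∈ σ then w e else 0) ∈ Set.Icc (0 : ℝ) M
        have hM0 : 0 ≤ M := by
          have := hMv (Sum.inl e.1)
          have := hpos (Sum.inl e.1)
          linarith
        by_cases he : e ∈ σ
        · rw [if_pos he]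
          refine ⟨h7 e he, ?_⟩
          have h9 := sum_inl h8 {e.1}
          rw [Finset.sum_singleton] at h9
          have h10 : w e ≤ ∑ e' ∈ σ.filter (fun e' => e'.1 ∈ ({e.1} : Finset α)), w e' :=
            Finset.single_le_sum (f := w) (fun e' he' => h7 e' (Finset.mem_filter.1 he').1)
              (Finset.mem_filter.2 ⟨he, Finset.mem_singleton_self _⟩)
          have h11 := (abs_lt.1 (h1 (Sum.inl e.1))).2
          have h12 : min (ε / 2) (min (m / 2) 1) ≤ 1 := (min_le_right _ _).trans (min_le_right _ _)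
          have := hMv (Sum.inl e.1)
          linarith
        · rw [if_neg he]
          exact ⟨le_refl _, hM0⟩
      · show ∑ e ∈ σ, (if e ∈ σ then w e else 0) • vec e = x'
        rw [← h8]
        exact Finset.sum_congr rfl fun e he => by rw [if_pos he]
    · rw [dist_comm, dist_pi_lt_iff hε]
      intro v
      rw [Real.dist_eq]
      have h9 : min (ε / 2) (min (m / 2) 1) ≤ ε / 2 := min_le_left _ _
      have := h1 v
      linarith
  rw [Set.mem_iUnion₂] at hx
  obtain ⟨σ, h1, w, h2, h3⟩ := hx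
  rw [hS] at h1
  obtain ⟨h4, h5, h6⟩ := h1
  exact ⟨σ, h4, h5, h6, w, fun e _ => (h2 e (Set.mem_univ e)).1, h3⟩

/-- PRESCRIBED DEGREES. -/
theorem degrees {cross : α × β → α × β → Prop} [Nonempty α] [Nonempty β]
    (hA : ∀ a b b', ¬ cross (a, b) (a, b')) (hB : ∀ a a' b, ¬ cross (a, b) (a', b))
    (hac : Acyc cross) {d : α → ℕ} (hd : ∀ a, 1 ≤ d a)
    (hsum : ∑ a, d a + 1 = Fintype.card α + Fintype.card β) :
    ∃ σ : Finset (α × β), Plane cross σ ∧ σ.card + 1 = Fintype.card α + Fintype.card β ∧ Conn σ ∧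
      ∀ a, (σ.filter fun e => e.1 = a).card = d a := by
  classical
  have hn : (0 : ℝ) < Fintype.card α := by exact_mod_cast Fintype.card_pos
  obtain ⟨x, hx⟩ : ∃ x : α ⊕ β → ℝ, x = Sum.elim (fun a => (d a : ℝ) - 1 + 1 / Fintype.card α)
      (fun _ => 1) := ⟨_, rfl⟩
  have hxl : ∀ a, x (Sum.inl a) = (d a : ℝ) - 1 + 1 / Fintype.card α := fun a => by rw [hx]; rfl
  have hxr : ∀ b, x (Sum.inr b) = 1 := fun b => by rw [hx]; rfl
  have hpos : ∀ v, 0 < x v := by
    rintro (a | b)
    · rw [hxl]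
      have h1 : (1 : ℝ) ≤ d a := by exact_mod_cast hd a
      have h2 : (0 : ℝ) < 1 / Fintype.card α := by positivity
      linarith
    · rw [hxr]
      exact one_pos
  have hbal : ∑ a, x (Sum.inl a) = ∑ b, x (Sum.inr b) := by
    simp only [hxl, hxr]
    rw [Finset.sum_add_distrib, Finset.sum_sub_distrib]
    simp only [Finset.sum_const, Finset.card_univ, nsmul_eq_mul, mul_one]
    have h1 : (∑ a, (d a : ℝ)) + 1 = Fintype.card α + Fintype.card β := by exact_mod_cast hsum
    have h2 : (Fintype.card α : ℝ) * (1 / Fintype.card α) = 1 := by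
      field_simp
    rw [h2]
    linarith
  obtain ⟨σ, h1, h2, h3, w, h4, h5⟩ := transport hA hB hac hpos hbal
  refine ⟨σ, h1, h2, h3, ?_⟩
  have hle : ∀ e ∈ σ, w e ≤ 1 := by
    intro e he
    have h6 := sum_inr h5 {e.2}
    rw [Finset.sum_singleton, hxr] at h6
    rw [h6]
    exact Finset.single_le_sum (f := w) (fun e' he' => h4 e' (Finset.mem_filter.1 he').1)
      (Finset.mem_filter.2 ⟨he, Finset.mem_singleton_self _⟩)
  have hdeg : ∀ a ∈ (univ : Finset α), d a ≤ (σ.filter fun e => e.1 = a).card := by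
    intro a _
    have h6 := sum_inl h5 {a}
    rw [Finset.sum_singleton, hxl] at h6
    have h7 : ∑ e ∈ σ.filter (fun e => e.1 ∈ ({a} : Finset α)), w e ≤
        ((σ.filter fun e => e.1 = a).card : ℝ) := by
      have h8 : σ.filter (fun e => e.1 ∈ ({a} : Finset α)) = σ.filter fun e => e.1 = a := by
        ext e
        simp only [Finset.mem_filter, Finset.mem_singleton]
      rw [h8]
      have h9 := Finset.sum_le_card_nsmul (σ.filter fun e => e.1 = a) w 1
        (fun e he => hle e (Finset.mem_filter.1 he).1)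
      rwa [nsmul_eq_mul, mul_one] at h9
    have h8 : (0 : ℝ) < 1 / Fintype.card α := by positivity
    have h9 : (d a : ℝ) < (σ.filter fun e => e.1 = a).card + 1 := by linarith
    have h10 : d a < (σ.filter fun e => e.1 = a).card + 1 := by exact_mod_cast h9
    omega
  have htot : ∑ a, (σ.filter fun e => e.1 = a).card = σ.card :=
    (Finset.card_eq_sum_card_fiberwise fun e _ => Finset.mem_coe.2 (Finset.mem_univ e.1)).symm
  have heq : ∑ a, d a = ∑ a, (σ.filter fun e => e.1 = a).card := by omega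
  intro a
  exact ((Finset.sum_eq_sum_iff_of_le hdeg).1 heq a (Finset.mem_univ a)).symm

end H89M
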